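import Pool.Agent.H99.D2.Bla
import Pool.Agent.H91.LA.Nbxc

/-!
# The derivatives of two labels of one window, in the direction of the last place of a chain

`two_lab_ch`: two labels over a chain have the same derivative in the direction of its last place, up
to the level of this place (for any order of the levels). `blf_blB_ch`: the labels of the family `BlF`
are near all labels of the windows `v k`, with the level of the place `r` in place of the radius of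
the window.
-/

set_option autoImplicit false

namespace Pool.CR99

open Finset Real MvPolynomial
open Pool.Agent.H49.Ent Pool.Agent.H32.Dense Pool.STK Pool.KA Pool.KSAT Pool.K2S Pool.PB Pool.S6C
open Pool.GEN Pool.CHT Pool.CHX Pool.ISO Pool.D2R Pool.D2G30 Pool.V1E
open Pool.FLF (Fam.sub)
open Pool.PB.Trl (rt rt_mem t_rt)
open Pool.GRD (LbP)
open Pool.BFL (Pb)
open Pool.ALT (BlC BlB sbu sbu_eval sbu_deg sbu_dep DpI Upg pe_part)
open Pool.LA91 (NB nbx_cls)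

variable {m : ℕ}

/-- **Two labels over a chain have the same derivative in the direction of its last place**, off a
small probability. -/
theorem two_lab_ch {S : PCl m} {C₀ : ℝ} (htm : TmC S C₀) {c : ℕ → Fin m} {r : ℕ} {κ : Fin m}
    {v u₀ u₁ : ℝ} {s rd : ℕ → ℝ} (hch : Pool.LA91.Chn S c 0 (r + 1) v u₀ u₁ s rd) (K : ℕ)
    {η p x : ℝ} (hη : 0 < η) (hx : s r - p < x) :
    Bas S (fun J F A => ∀ (P₁ P₂ : ℕ) (V₁ V₂ : Type) (z₁ : PtT F → V₁) (z₁' : LnT F → V₁)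
      (G₁ : V₁ → MvPolynomial (Option (Fin m)) ℝ) (z₂ : PtT F → V₂) (z₂' : LnT F → V₂)
      (G₂ : V₂ → MvPolynomial (Option (Fin m)) ℝ),
      LbP F ((range (r + 1)).image c) κ K J ⌊v * J⌋₊ P₁ A z₁ z₁' G₁ →
      LbP F ((range (r + 1)).image c) κ K J ⌊v * J⌋₊ P₂ A z₂ z₂' G₂ →
      p * J ≤ P₁ → p * J ≤ P₂ →
      ∃ B : F.Ω → Prop, Sub B A ∧ (1 - η) * Pe F.p A ≤ Pe F.p B ∧ ∀ ω, B ω →
        |eval (bt F ω) (pderiv (some (c r)) (G₁ (z₁' (slam F ⌊v * J⌋₊ ω)) -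
          G₂ (z₂' (slam F ⌊v * J⌋₊ ω))))| ≤ 2 ^ (x * J)) := by
  classical
  obtain ⟨C, hC, hmk⟩ := Pool.GRD.dir_markov (m := m) K
  have hl2 : 0 < Real.log 2 := Real.log_pos one_lt_two
  have hs0 := (hch.s0 r (Nat.zero_le _) (Nat.lt_succ_self r)).1
  obtain ⟨ε, hε⟩ : ∃ ε : ℝ, ε = (x - (s r - p)) / 2 := ⟨_, rfl⟩
  have hε0 : 0 < ε := by
    rw [hε]
    linarith
  have hu₂ : u₀ < (u₀ + 1) / 2 := by linarith [hch.u0]
  have hu2 : (u₀ + 1) / 2 < 1 := by linarith [hch.u0]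
  obtain ⟨K', d, hd, H⟩ := nbx_cls htm hch hu₂ hu2 K hε0 one_pos
  obtain ⟨η', hη'⟩ : ∃ η' : ℝ, η' = min η 1 := ⟨_, rfl⟩
  have hη0 : 0 < η' := by rw [hη']; exact lt_min hη one_pos
  have hη1 : η' ≤ 1 := by rw [hη']; exact min_le_right _ _
  have hηη : η' ≤ η := by rw [hη']; exact min_le_left _ _
  have hdr := (hd r (Nat.zero_le _) (Nat.lt_succ_self r)).1
  obtain ⟨J₁, hJ₁⟩ := exists_nat_ge (Real.log (2 * C) / (ε * Real.log 2))
  refine Bas.mono J₁ ((H η' hη0 hη1).and (Pool.GRW.tmc_bas htm one_pos)) ?_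
  rintro J hJ F A ⟨⟨V, z, z', g, hg, -, hzc, H⟩, hA, -⟩ P₁ P₂ V₁ V₂ z₁ z₁' G₁ z₂ z₂' G₂ h₁ h₂ hP₁ hP₂
  have hJ0 : (0 : ℝ) ≤ J := Nat.cast_nonneg J
  have hεl : 0 < ε * Real.log 2 := by positivity
  have hC2 : (2 * C : ℝ) ≤ 2 ^ (ε * J) := by
    have e1 : (J₁ : ℝ) ≤ J := by exact_mod_cast hJ
    have e2 := hJ₁.trans e1
    rw [div_le_iff₀ hεl] at e2
    rw [rp_exp]
    have h4 : 0 < 2 * C := by linarith
    calc 2 * C = Real.exp (Real.log (2 * C)) := (Real.exp_log h4).symm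
      _ ≤ _ := Real.exp_le_exp.2 (by linarith)
  have hH := H (r + 1) (Nat.zero_le _) le_rfl κ K P₁ P₂ V₁ V₂ z₁ z₁' G₁ z₂ z₂' G₂
    (by rw [if_neg (lt_irrefl _)]; exact le_max_left _ _) h₁ h₂
  have hB := pe_part F.isLaw.nonneg hA _ hH
  refine ⟨_, fun ω hω => hω.1, le_trans (mul_le_mul_of_nonneg_right (by linarith) hA.le) hB,
    fun ω hω => ?_⟩
  obtain ⟨hAω, hb⟩ := hω
  rw [not_not] at hb
  obtain ⟨δ, hδ⟩ : ∃ δ : ℝ, δ = 1 / 2 ^ ⌊(s r - d r) * J⌋₊ := ⟨_, rfl⟩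
  have hδ0 : 0 < δ := by rw [hδ]; positivity
  have hne : ∀ l < r, (some (c l) : Option (Fin m)) ≠ some (c r) := fun l hl h => by
    have h3 := hch.inj (Set.mem_Iio.2 (by omega : l < r + 1))
      (Set.mem_Iio.2 (Nat.lt_succ_self r)) (Option.some.inj h)
    omega
  have k1 := hmk (G₁ (z₁' (slam F ⌊v * J⌋₊ ω)) - G₂ (z₂' (slam F ⌊v * J⌋₊ ω))) (bt F ω)
    (some (c r)) δ (2 ^ (ε * J) * (1 / 2 ^ P₁ + 1 / 2 ^ P₂))
    ((MvPolynomial.totalDegree_sub _ _).trans (max_le (h₁.deg _) (h₂.deg _))) hδ0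
    fun y hy => by
      refine hb _ ⟨?_, fun l hl => absurd hl (Nat.not_lt_zero l), fun i _ hi => ?_⟩
      · rw [Function.update_of_ne (by simp)]
        have : bt F ω none = F.t ω := rfl
        rw [this, sub_self, abs_zero]
        positivity
      · have hgi := hg i (Nat.zero_le _) hi
        have hpos := hgi.pos ω hAω
        have hev : eval (Function.update (bt F ω) (some (c r)) (bt F ω (some (c r)) + y))
            (g (z' (slam F ⌊v * J⌋₊ ω)) i) = eval (bt F ω) (g (z' (slam F ⌊v * J⌋₊ ω)) i) := by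
          refine hgi.dep _ _ _ (Function.update_of_ne (by simp) _ _) fun j hj => ?_
          obtain ⟨l, hl, rfl⟩ := mem_image.1 hj
          have hl' := mem_range.1 hl
          exact Function.update_of_ne (hne l (by omega)) _ _
        rw [hev]
        rcases Nat.lt_or_ge i r with h | h
        · rw [Function.update_of_ne (hne i h)]
          have hpos' : |bt F ω (some (c i)) - eval (bt F ω) (g (z' (slam F ⌊v * J⌋₊ ω)) i)| ≤
              1 / 2 ^ ⌊(s i - d i) * J⌋₊ := hpos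
          refine hpos'.trans (div_le_div_of_nonneg_right (by norm_num) (by positivity))
        · obtain rfl : i = r := by omega
          rw [Function.update_self]
          have hpos' : |bt F ω (some (c i)) - eval (bt F ω) (g (z' (slam F ⌊v * J⌋₊ ω)) i)| ≤
              1 / 2 ^ ⌊(s i - d i) * J⌋₊ := hpos
          have e1 : bt F ω (some (c i)) + y - eval (bt F ω) (g (z' (slam F ⌊v * J⌋₊ ω)) i) =
              (bt F ω (some (c i)) - eval (bt F ω) (g (z' (slam F ⌊v * J⌋₊ ω)) i)) + y := by ring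
          rw [e1]
          refine (abs_add_le _ _).trans ?_
          rw [hδ] at hy
          have e2 : (2 : ℝ) / 2 ^ ⌊(s i - d i) * J⌋₊ = 1 / 2 ^ ⌊(s i - d i) * J⌋₊ +
              1 / 2 ^ ⌊(s i - d i) * J⌋₊ := by ring
          show _ ≤ (2 : ℝ) / 2 ^ ⌊(s i - d i) * J⌋₊
          rw [e2]
          exact add_le_add hpos' hy
  refine k1.trans ?_
  have e1 : C * (2 ^ (ε * J) * (1 / 2 ^ P₁ + 1 / 2 ^ P₂)) / δ =
      C * 2 ^ (ε * J) * 2 ^ ⌊(s r - d r) * J⌋₊ * (1 / 2 ^ P₁ + 1 / 2 ^ P₂) := by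
    rw [hδ]
    field_simp
  have hp : ∀ P : ℕ, p * J ≤ P → (1 : ℝ) / 2 ^ P ≤ 2 ^ (-(p * J)) := by
    intro P hP
    rw [Real.rpow_neg (by norm_num), one_div]
    refine inv_anti₀ (Real.rpow_pos_of_pos (by norm_num) _) ?_
    rw [← Real.rpow_natCast]
    exact Real.rpow_le_rpow_of_exponent_le (by norm_num) hP
  have hu2' : (2 : ℝ) ^ ⌊(s r - d r) * J⌋₊ ≤ 2 ^ (s r * J) := by
    rw [← Real.rpow_natCast]
    refine Real.rpow_le_rpow_of_exponent_le (by norm_num) ?_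
    rcases le_or_gt 0 ((s r - d r) * J) with h | h
    · refine (Nat.floor_le h).trans (mul_le_mul_of_nonneg_right (by linarith) hJ0)
    · rw [Nat.floor_of_nonpos h.le, Nat.cast_zero]
      positivity
  rw [e1]
  have e3 : (2 : ℝ) ^ (x * J) = 2 ^ (ε * J) * (2 ^ (ε * J) * 2 ^ (s r * J) * 2 ^ (-(p * J))) := by
    rw [← Real.rpow_add (by norm_num), ← Real.rpow_add (by norm_num), ← Real.rpow_add (by norm_num)]
    congr 1
    rw [hε]
    ring
  rw [e3]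
  calc C * 2 ^ (ε * J) * 2 ^ ⌊(s r - d r) * J⌋₊ * (1 / 2 ^ P₁ + 1 / 2 ^ P₂) ≤
      C * 2 ^ (ε * J) * 2 ^ (s r * J) * (2 ^ (-(p * J)) + 2 ^ (-(p * J))) := by
        have h5 := hp P₁ hP₁
        have h6 := hp P₂ hP₂
        have h7 : 0 ≤ C * (2 : ℝ) ^ (ε * J) := by positivity
        exact mul_le_mul (mul_le_mul_of_nonneg_left hu2' h7) (add_le_add h5 h6) (by positivity)
          (by positivity)
    _ = (2 * C) * (2 ^ (ε * J) * 2 ^ (s r * J) * 2 ^ (-(p * J))) := by ring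
    _ ≤ _ := mul_le_mul_of_nonneg_right hC2 (by positivity)

/-- **The labels of the family `BlF` are near all labels of the windows `v k`**, with the level of the
place `r`. -/
theorem blf_blB_ch {S : PCl m} {C₀ : ℝ} (htm : TmC S C₀) {c : ℕ → Fin m}
    {r K K₁ K₂ Ku : ℕ} {e₀ ρ₀ π₀ w : ℝ} {n : ℕ} {v p₁ x₀ : ℕ → ℝ} {k : ℕ} (hk : k < n)
    {u₀ u₁ : ℝ} {s rd : ℕ → ℝ} (hch : Pool.LA91.Chn S c 0 (r + 1) (v k) u₀ u₁ s rd) {p p₂ x : ℝ}
    (hp : 0 ≤ p) (hx₀ : x₀ k < x) (hx₁ : s r - p₁ k < x) (hx₂ : s r - p < x) :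
    BlB S c r (c (r + 1)) w (v k) K₂ Ku p p₂ x (BlF c r K K₁ e₀ ρ₀ π₀ w n v p₁ x₀) := by
  intro η χ hη hχ
  obtain ⟨u, hu⟩ : ∃ u, u = s r := ⟨_, rfl⟩
  rw [← hu] at hx₁ hx₂
  obtain ⟨x', hx'⟩ : ∃ x' : ℝ, x' = max (x₀ k) ((max (u - p₁ k) (u - p) + x) / 2) := ⟨_, rfl⟩
  have hx'x : x' < x := by
    rw [hx']
    refine max_lt hx₀ ?_
    have := max_lt hx₁ hx₂
    linarith
  have hx0' : x₀ k ≤ x' := by rw [hx']; exact le_max_left _ _
  have hx1' : s r - min (p₁ k) p < x' := by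
    rw [hx', ← hu]
    refine lt_of_lt_of_le ?_ (le_max_right _ _)
    have h1 : u - min (p₁ k) p = max (u - p₁ k) (u - p) := by
      rcases le_total (p₁ k) p with h | h
      · rw [min_eq_left h, max_eq_left (by linarith)]
      · rw [min_eq_right h, max_eq_right (by linarith)]
    rw [h1]
    have := max_lt hx₁ hx₂
    linarith
  obtain ⟨J₁, hJ₁⟩ := exists_nat_ge (1 / (x - x'))
  refine Bas.mono J₁ ((two_lab_ch htm (κ := c (r + 1)) hch (max K₁ K₂)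
    (η := η) (p := min (p₁ k) p) (x := x') hη hx1').and (Pool.GRW.tmc_bas htm one_pos)) ?_
  rintro J hJ F A ⟨H, hA, -⟩ V z z' G hΨ P₁ V₁ z₁ z₁' G₁ hG₁ hP₁ P₂ V₂ z₂ z₂' H₂ hH hP₂
  have hJ0 : (0 : ℝ) ≤ J := Nat.cast_nonneg J
  obtain ⟨V₃, z₃, z₃', G₃, P₃, h1, h2, h3⟩ := hΨ.2 k hk
  obtain ⟨B, b1, b2, b3⟩ := H P₁ P₃ V₁ V₃ z₁ z₁' G₁ z₃ z₃' G₃
    (hG₁.mono (Finset.Subset.refl _) (le_max_right _ _) le_rfl)
    (h1.mono (Finset.Subset.refl _) (le_max_left _ _) le_rfl) (by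
      have e1 : min (p₁ k) p * J ≤ p * J := mul_le_mul_of_nonneg_right (min_le_right _ _) hJ0
      have e2 : (p + χ) * J = p * J + χ * J := by ring
      have e3 : 0 ≤ χ * J := by positivity
      linarith) (le_trans (mul_le_mul_of_nonneg_right (min_le_left _ _) hJ0) h2)
  obtain ⟨q', hq'⟩ : ∃ q' : F.Ω → ℝ, q' = Pool.Agent.H49.Ent.cond F.p A True := ⟨_, rfl⟩
  have hq'l : IsLaw q' := by
    rw [hq']
    exact isLaw_cond F.isLaw hA
  -- off `B`
  have hB : Pb q' (fun ω => ¬ B ω) ≤ η := by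
    classical
    rw [hq', show Pb (Pool.Agent.H49.Ent.cond F.p A True) (fun ω => ¬ B ω) =
      Pe (Pool.Agent.H49.Ent.cond F.p A True) (fun ω => ¬ B ω) by rw [Pe_eq]; rfl, Pe_cond,
      div_le_iff₀ hA]
    have h5 : Pe F.p (fun ω => A ω ∧ ¬ B ω) + Pe F.p B ≤ Pe F.p A := by
      rw [Pe_eq, Pe_eq, Pe_eq, ← Finset.sum_add_distrib]
      refine Finset.sum_le_sum fun ω _ => ?_
      have h6 := F.isLaw.nonneg ω
      by_cases g1 : A ω <;> by_cases g2 : B ω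
      · simp [g1, g2]
      · simp [g1, g2]
      · exact absurd (b1 ω g2) g1
      · simp [g1, g2]
    linarith
  rw [← hq']
  refine le_trans (Pool.GRD.Pb_mono_pos hq'l.nonneg fun ω hω0 hω => ?_) hB
  intro hBω
  have hAω := b1 ω hBω
  have h4 := b3 ω hBω
  have h5 := h3 ω hAω
  have h6 : |eval (bt F ω) (pderiv (some (c r)) (G₁ (z₁' (slam F ⌊v k * J⌋₊ ω)) -
      G (z' (slam F ⌊w * J⌋₊ ω))))| ≤ 2 ^ (x' * J) + 2 ^ (x' * J) := by
    have e1 : G₁ (z₁' (slam F ⌊v k * J⌋₊ ω)) - G (z' (slam F ⌊w * J⌋₊ ω)) =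
        (G₁ (z₁' (slam F ⌊v k * J⌋₊ ω)) - G₃ (z₃' (slam F ⌊v k * J⌋₊ ω))) +
        (G₃ (z₃' (slam F ⌊v k * J⌋₊ ω)) - G (z' (slam F ⌊w * J⌋₊ ω))) := by ring
    rw [e1, map_add, map_add]
    refine (abs_add_le _ _).trans (add_le_add h4 (h5.trans ?_))
    exact Real.rpow_le_rpow_of_exponent_le (by norm_num)
      (mul_le_mul_of_nonneg_right hx0' hJ0)
  have h7 : (2 : ℝ) ^ (x' * J) + 2 ^ (x' * J) ≤ 2 ^ (x * J) := by
    have e1 : (2 : ℝ) ^ (x' * J) + 2 ^ (x' * J) = 2 ^ (x' * J + 1) := by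
      rw [Real.rpow_add (by norm_num), Real.rpow_one]
      ring
    rw [e1]
    refine Real.rpow_le_rpow_of_exponent_le (by norm_num) ?_
    have e2 : (J₁ : ℝ) ≤ J := by exact_mod_cast hJ
    have e3 := hJ₁.trans e2
    rw [div_le_iff₀ (by linarith)] at e3
    linarith
  exact absurd hω (not_lt.2 (h6.trans h7))

end Pool.CR99
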