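import Pool.Agent.H73.D2.Tvf
import Pool.Agent.H31.WX.Blc

/-!
# The blind labels with labels of the chain and a closed own height, for any order of the levels

`bvf_ex_ch`: as `Pool.ALT.bvf_ex`, where the radius of the window need not be the level of the place
`r`.
-/

set_option autoImplicit false

namespace Pool.ALT

open Finset Real MvPolynomial
open Pool.Agent.H49.Ent Pool.Agent.H32.Dense Pool.STK Pool.KA Pool.KSAT Pool.K2S Pool.PB Pool.S6C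
  Pool.GEN Pool.RCD Pool.LA91 Pool.OWN68 Pool.PKG
open Pool.UNJ (ceI)
open Pool.GRD (LbP)
open Pool.AJX (LbX)
open Pool.NPZ (Fm4 VaD)
open Pool.CR99 (BlF BlX blf_of blf_blB_ch)
open Pool.V0F (LbU her_extc recG_lbf)

variable {m : ℕ}

/-- **The labels exist** on a part of every event, from a closed slope. -/
theorem bvf_ex_ch {S : PCl m} {C₀ : ℝ} (hC₀ : 0 ≤ C₀) (htm : TmC S C₀)
    (hpos : ∀ (τ : ℝ) (J : ℕ) (F : Fam m J) (A : F.Ω → Prop), S.St τ J F A → 0 < Pe F.p A)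
    {c : ℕ → Fin m} {r D K K₁ : ℕ} (hinj : Set.InjOn c (Set.Iio (r + 1)))
    {w a pκ pu E₁ Eu ur : ℝ} (W : AlW S c r (c (r + 1)) D a pκ pu E₁ Eu ur) {u₀ u₁ : ℝ}
    {s rs : ℕ → ℝ} (hch : Chn S c 0 (r + 1) a u₀ u₁ s rs) (hs : s r = pu) (hw0 : 0 ≤ w)
    (hwa : w ≤ a) {P κ' : ℝ} {n : ℕ} {v p₁ x₀ : ℕ → ℝ} (hκ' : 0 < κ')
    (hX : BlX S c r K K₁ w P n v p₁ x₀ κ') {u' p e₀ σ : ℝ}
    (hup : Upg S ((range (r + 1)).image c) (c (r + 1)) K w u' p e₀) (hσ : 0 < σ)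
    (hpP : p + σ ≤ P) {k : ℕ} (hk : k < n) (hvk : v k = a) {pa : ℝ} (hpa0 : 0 ≤ pa)
    (hpa : pa < pκ) (hpk : pa < p₁ k) (hxk : x₀ k + pa < pu) {Kc : ℕ} {e : ℝ}
    {E rd pc : ℕ → ℝ}
    (hl : Bas S (fun _ F A => ∃ (V : Type) (z : PtT F → V)
      (z' : LnT F → V) (g : V → ℕ → MvPolynomial (Option (Fin m)) ℝ),
      LbX F c 0 (r + 1) Kc e E w rd pc A z z' g)) :
    Bas S (fun J F A => ∃ B : F.Ω → Prop, Sub B A ∧ Pe F.p A ≤ 8 * κ' * Pe F.p B ∧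
      ∃ (V : Type) (z : PtT F → V) (z' : LnT F → V) (G : V → MvPolynomial (Option (Fin m)) ℝ)
        (g : V → ℕ → MvPolynomial (Option (Fin m)) ℝ),
        BvF c r K K₁ e₀ u' p w n v p₁ x₀ Kc e E rd pc (max K D * max 1 D) a pa J F B V z z' G
          g) := by
  have hpk0 := W.pk0
  obtain ⟨x, hx⟩ : ∃ x : ℝ, x = (max (x₀ k) (max (pu - p₁ k) (pu - pκ)) + (pu - pa)) / 2 :=
    ⟨_, rfl⟩
  have hmx : max (x₀ k) (max (pu - p₁ k) (pu - pκ)) < pu - pa :=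
    max_lt (by linarith) (max_lt (by linarith) (by linarith))
  have hx1 : x₀ k < x := by
    rw [hx]
    linarith [le_max_left (x₀ k) (max (pu - p₁ k) (pu - pκ))]
  have hx2 : pu - p₁ k < x := by
    rw [hx]
    linarith [(le_max_left _ _).trans (le_max_right (x₀ k) (max (pu - p₁ k) (pu - pκ)))]
  have hx3 : pu - pκ < x := by
    rw [hx]
    linarith [(le_max_right _ _).trans (le_max_right (x₀ k) (max (pu - p₁ k) (pu - pκ)))]
  have hx4 : x + pa < pu := by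
    rw [hx]
    linarith
  obtain ⟨pb, hpb⟩ : ∃ pb : ℝ, pb = max 0 ((pu - x + pκ) / 2) := ⟨_, rfl⟩
  have hpb0 : 0 ≤ pb := by
    rw [hpb]
    exact le_max_left _ _
  have hpb1 : pb < pκ := by
    rw [hpb]
    exact max_lt hpk0 (by linarith)
  have hpb2 : pu - pb < x := by
    have : (pu - x + pκ) / 2 ≤ pb := by
      rw [hpb]
      exact le_max_right _ _
    linarith
  have hbl : ∀ p₂ : ℝ, BlB S c r (c (r + 1)) w a D D pb p₂ x
      (BlF c r K K₁ e₀ u' p w n v p₁ x₀) := by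
    intro p₂
    have h1 := blf_blB_ch htm (c := c) (r := r) (K := K) (K₁ := K₁) (K₂ := D) (Ku := D) (e₀ := e₀)
      (ρ₀ := u') (π₀ := p) (w := w) (n := n) (v := v) (p₁ := p₁) (x₀ := x₀) hk (u₀ := u₀) (u₁ := u₁)
      (s := s) (rd := rs) (by rw [hvk]; exact hch) (p := pb) (p₂ := p₂) (x := x)
      hpb0 hx1 (by rw [hs]; exact hx2) (by rw [hs]; exact hpb2)
    rw [hvk] at h1
    exact h1
  have hv := vad_win hC₀ htm hpos (K := K) hinj W hw0 hwa hpa0 hpa hpb1 hx4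
    (Ψ := BlF c r K K₁ e₀ u' p w n v p₁ x₀)
    (fun J F A V z z' G hG => ⟨hG.1.deg, hG.1.dep, hG.1.cls⟩)
    (fun J F A B V z z' G hB hG => BlF.hs J F A B V z z' G hB hG) hbl
  refine Bas.mono 0 (((blf_of htm hX hκ' hup hσ hpP).and hl).and
    (Pool.GRW.bas_part hv (c := 4 * κ') (by positivity))) ?_
  rintro J - F A ⟨⟨⟨B₁, b1, b2, V₁, z₁, z₁', G, hG⟩, V₂, z₂, z₂', g, hg⟩, H⟩
  obtain ⟨B, c1, c2, c3⟩ := H B₁ b1 b2 V₁ z₁ z₁' G hG
  have hBA : Sub B A := fun ω hω => b1 ω (c1 ω hω)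
  have hcc : ∀ ω, B ω → (fun x => (z₁ x, z₂ x)) (ptr F J ω) =
      (fun x => (z₁' x, z₂' x)) (slam F ⌊w * J⌋₊ ω) := fun ω hω => by
    show (z₁ (ptr F J ω), z₂ (ptr F J ω)) = _
    rw [hG.1.cls ω (c1 ω hω), (hg 0 le_rfl (Nat.succ_pos r)).cls ω (hBA ω hω)]
  refine ⟨B, hBA, ?_, V₁ × V₂, fun x => (z₁ x, z₂ x), fun x => (z₁' x, z₂' x), fun x => G x.1,
    fun x => g x.2, blf_code (BlF.hs J F B₁ B V₁ z₁ z₁' G c1 hG) _ _ Prod.fst (fun _ => rfl) hcc,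
    fun i h0 h1 => lbok_code ((hg i h0 h1).sub hBA) _ _ Prod.snd (fun _ => rfl) hcc,
    vad_code c3 _ Prod.fst fun _ => rfl⟩
  have := mul_le_mul_of_nonneg_left c2 (show 0 ≤ 4 * κ' by positivity)
  linarith

end Pool.ALT
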