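import Pool.Agent.H30.LPT.Twq
import Pool.Agent.H57.SWC.Jtv

/-!
# No look-ahead given the near path, the chain and one more place, for the swapped list

`der_lw`: the derivatives of the levels of the swapped list. `aePG_tw`: the property `TwQ` of the
windows holds at almost every window for the list with the places 1 and 2 swapped.
-/

set_option autoImplicit false

namespace Pool.W.LPT30

open Finset Real MvPolynomial MeasureTheory
open Pool.Agent.H49.Ent Pool.Agent.H32.Dense Pool.STK Pool.KA Pool.KSAT Pool.K2S Pool.PB Pool.S6C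
  Pool.GEN Pool.RCD Pool.LA91 Pool.LP30 Pool.LPJ30 Pool.CHT Pool.GRW
open Pool.PKG hiding AePG
open Pool.AVG96 (gap_ae)
open Pool.TOP (TopS)
open Pool.V0F (LbU AttUQ exs_jetE)
open Pool.W.PKG (AePG LwD)
open Pool.SWP Pool.SWC Pool.LPT30

/-- **The derivatives of the levels of the swapped list** at a window with small gaps. -/
theorem der_lw {n : ℕ} {hn : 2 ≤ n} {P : ℝ → ℝ → ℝ} {P' : ℕ → List (Fin n) × Fin n → ℝ → ℝ → ℝ}
    {o : Od n} {G : Set ℝ} {L : ℕ → ℝ → ℝ → ℝ} (hL : LwD hn P P' o G L) {l : ℕ} (hl : l < n)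
    {s g : ℝ} (h0 : 0 < g) (h1 : g < 1) (hg : g ∈ G)
    (hd : HasDerivAt (fun a => LvL hn P P' o (sw 1 l) a a) s g)
    (hgap : ∀ C τ : ℝ, 0 < C → 0 < τ → ∃ q₁ : ℝ, 0 < q₁ ∧ ∀ q y : ℝ, 0 < q →
      q < q₁ → |y - g| ≤ C * q → ∃ x ∈ G, y ≤ x ∧ x ≤ y + τ * q) :
    HasDerivAt (fun a => L l a a) s g :=
  der_of_dense h0 h1 (hL.mono l) (fun w hw => hL.dia l hl w hw) hd hg hgap

/-- **The property `TwQ` holds at almost every window** of the swapped list, in a subclass. -/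
theorem aePG_tw (n : ℕ) : AePG n (TwQ : PropG n TwX) := by
  intro h2 hn S P r P' Λ PB PQ H hTop hF o G hG hGs hsw hct P₀ θ₀ L T hL
  obtain ⟨S₀, z1, z2, z3⟩ := Pool.W.V0F.aePG_attU n h2 hn S P r P' Λ PB PQ H hTop hF o G hG hGs
    hsw hct P₀ θ₀ L T hL
  have H₀ := H.sub z1 z2
  obtain ⟨c, hc⟩ : ∃ c : ℕ → Fin n, c = fun l => cc hn o.1.1 (sw 1 l) := ⟨_, rfl⟩
  rw [← hc] at z3
  rw [← hc]
  obtain ⟨al, g₀, s, d', e', K₁, N₁, hal, hg₀, hC⟩ := H₀.cl
  have htm : TmC S₀ 6 := Pool.GEN.N83.clx_tmc hC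
  have hM : Bas S₀ (fun J F A => (cnt F.p (ptr F J) A : ℝ) ≤ Real.exp ((4 * n + 1) * J)) :=
    Bas.mono 0 hC.cnt fun J _ F A h => h J le_rfl
  have hW : ∀ d < n, ChG S₀ c d (fun l w => L l w w) G := fun d hd => by
    rw [hc]
    exact chG_cg (gs_chG_sw (k := 1) H₀.toPk hTop hF hGs (fun _ _ _ _ h => h) h2
      (fun w hw => (hsw w hw).sub z2) (by omega)) fun i hi w hw => hL.dia i (by omega) w hw
  obtain ⟨S₁, a1, a2, η, hη⟩ := rnum_ptr hC.ne hC.pos hM
  have hW1 : ∀ d < n, ChG S₁ c d (fun l w => L l w w) G := fun d hd => (hW d hd).sub a2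
  have hpos1 : ∀ (τ : ℝ) (J : ℕ) (F : Fam n J) (A : F.Ω → Prop), S₁.St τ J F A → 0 < Pe F.p A :=
    fun τ J F A h => hC.pos τ J F A (a2 τ J F A h)
  have hsl : ∀ l < n, sw 1 l ≤ n - 1 := fun l hl => sw_lt_n (by omega) (by omega)
  have hlt : ∀ l < n, ∀ w ∈ G, L l w w < 1 := fun l hl w hw => by
    rw [hL.dia l hl w hw]
    exact lev_lt' H₀.toPk hTop hF (hGs hw) (hsl l hl)
  have hmon : ∀ l < n, ∀ w ∈ G, ∀ v ∈ G, w ≤ v → L l w w - w ≤ L l v v - v :=
    fun l hl w hw v hv hwv => by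
      rw [hL.dia l hl w hw, hL.dia l hl v hv]
      exact law_gap (H₀.lawL o (sw 1 l)) (hGs hw).1.1.1.le hwv (hGs hv).1.1.2.1.le
        (lev_lt' H₀.toPk hTop hF (hGs hv) (hsl l hl))
  obtain ⟨S₂, b1, b2, b3⟩ := nt_fam (c := c)
    (X := {x : TwX × ℚ × ℚ // x.1.r + 1 < n ∧ (x.2.2 : ℝ) < 1 ∧
      LabOk S₁ c L G x.1.r x.2.1 x.2.2})
    (fun x => twy c L G x.1) a1 hpos1 (fun x => by
      obtain ⟨⟨p, α, β⟩, h1, h2, h3⟩ := x
      simp only at h1 h2 h3
      have hcl : IsClosed (G ∩ Set.Icc (α : ℝ) β) := hG.inter isClosed_Icc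
      have hch : ∀ d < n, ChG S₁ c d (fun l w => L l w w)
          (G ∩ Set.Icc (α : ℝ) β) := fun d hd => ⟨fun w hw => (hW1 d hd).ch w hw.1⟩
      have hn1 : ∀ N : ℕ, NiC S₁ c p.r (fun _ : Fin N => c p.r)
          (fun l w => L l w w) (fun _ w => L p.r w w)
          (G ∩ Set.Icc (α : ℝ) β) 0 0 β := fun N =>
        { ne := a1
          pos := hpos1
          tm := ⟨6, fun τ J F A hτ h => htm τ J F A hτ (a2 τ J F A h)⟩
          rn := fun w _ _ => ⟨η w, by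
            rw [add_zero]
            exact hη w⟩
          cl := hcl
          ch := hch p.r (by omega)
          mn := fun l hl w hw v hv hwv => by
            have := hmon l (by omega) w hw.1 v hv.1 hwv
            linarith
          att := fun _ w hw => by
            obtain ⟨u₁, rd, h1, h2⟩ := (hW1 (p.r + 1) (by omega)).ch w hw.1
            exact ⟨rd p.r, h1 p.r (by omega), h2.att p.r (Nat.zero_le _) (by omega)⟩
          mT := fun _ w hw v hv hwv => hmon p.r (by omega) w hw.1 v hv.1 hwv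
          B1 := h2 }
      have htt : TwT S₁ c p.r (fun l w => L l w w)
          (G ∩ Set.Icc (α : ℝ) β) (c (p.r + 1))
          (fun w => L (p.r + 1) w w) :=
        { ex := fun w hw j N => h3 w hw j N
          mono := fun w hw v hv hwv => by
            have := hmon (p.r + 1) (by omega) w hw.1 v hv.1 hwv
            linarith }
      have hti : TwI S₁ c p.r (fun l w => L l w w)
          (G ∩ Set.Icc (α : ℝ) β) (fun _ : Fin p.nT => c (p.r + 1))
          (fun _ w => L (p.r + 1) w w) (fun _ : Fin p.nU => c (p.r + 1))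
          (fun _ w => L (p.r + 1) w w) :=
        { ch := hch (p.r + 1) (by omega)
          mn := fun l hl w hw v hv hwv => by
            have := hmon l (by omega) w hw.1 v hv.1 hwv
            linarith
          tT := fun _ => htt
          tU := fun _ => htt }
      exact ⟨hn1 p.nA, hn1 p.nB, hti⟩)
  refine ⟨S₂, b1, fun τ J F A h => z2 τ J F A (a2 τ J F A (b2 τ J F A h)), ?_⟩
  filter_upwards [z3, b3, H.toPkT.dia_all H.pble hTop hF, gap_ae hG, pt_near G] with g h0 h1 hdia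
    hgap hnear hg κ hκ p
  have ho := hGs hg
  have g0 : 0 < g := ho.1.1.1
  have g1 : g < 1 := ho.1.1.2.1
  have hd0 : ∀ l < n, HasDerivAt (fun a => L l a a)
      (deriv (fun a => LvL hn P P' o (sw 1 l) a a) g) g := fun l hl =>
    der_lw hL hl g0 g1 hg (hdia o ho (sw 1 l) (hsl l hl)).1.hasDerivAt (hnear hg)
  have hde : ∀ l < n, deriv (fun a => L l a a) g =
      deriv (fun a => LvL hn P P' o (sw 1 l) a a) g := fun l hl => (hd0 l hl).deriv
  have hdv : ∀ l < n, HasDerivAt (fun a => L l a a) (deriv (fun a => L l a a) g) g :=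
    fun l hl => by
      rw [hde l hl]
      exact hd0 l hl
  have hch : ∀ d < n, ChG S₂ c d (fun l w => L l w w) G := fun d hd => (hW1 d hd).sub b2
  by_cases hall : p.r + 1 < n ∧ (∀ l < p.r, κ l = .one) ∧ 0 < p.e ∧
    (∀ i, (p.oA i : ℝ) < deriv (fun a => L p.r a a) g ∨ p.oA i ≤ 1) ∧
    (∀ i, (p.oB i : ℝ) = deriv (fun a => L p.r a a) g) ∧
    (∀ i, (p.oT i : ℝ) < deriv (fun a => L (p.r + 1) a a) g ∧
      deriv (fun a => L (p.r + 1) a a) g < deriv (fun a => L p.r a a) g) ∧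
    (∀ i, (p.oU i : ℝ) = deriv (fun a => L (p.r + 1) a a) g ∧
      deriv (fun a => L (p.r + 1) a a) g < deriv (fun a => L p.r a a) g)
  swap
  · refine ⟨0, ⟨η, fun w => (hη w).sub b2⟩, hch, hdv, fun a b ha hb e1 e2 e3 e4 e5 e6 e7 => ?_⟩
    subst ha
    subst hb
    exact absurd ⟨e1, e2, e3, e4, e5, e6, e7⟩ hall
  obtain ⟨e1, e2, e3, e4, e5, e6, e7⟩ := hall
  -- a small interval with labels
  obtain ⟨α, β, hα, hβ, hβ1, hlab⟩ : ∃ α β : ℚ, (α : ℝ) < g ∧ g < (β : ℝ) ∧ (β : ℝ) < 1 ∧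
      LabOk S₁ c L G p.r α β := by
    rcases Nat.lt_or_ge (p.r + 2) n with h5 | h5
    · obtain ⟨α, -, hα⟩ := exists_rat_btwn (show g - 1 < g by linarith)
      obtain ⟨β, h6, h7⟩ := exists_rat_btwn g1
      refine ⟨α, β, hα, h6, h7, fun w hw j N => ?_⟩
      obtain ⟨u₁, rd, k1, k2⟩ := (hW1 (p.r + 2) h5).ch w hw.1
      exact exs_jet (k1 (p.r + 1) (by omega)) (k2.att (p.r + 1) (Nat.zero_le _) (by omega))
    · obtain ⟨k₁, hk₁⟩ := h0 hg κ hκ ()
      have hp : (0 : ℝ) < (1 / 2) ^ k₁ := by positivity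
      obtain ⟨α, k1, k2⟩ := exists_rat_btwn (show g - (1 / 2) ^ k₁ < g by linarith)
      obtain ⟨β, k3, k4⟩ := exists_rat_btwn (show g < min 1 (g + (1 / 2) ^ k₁) from
        lt_min g1 (by linarith))
      refine ⟨α, β, k2, k3, k4.trans_le (min_le_left _ _), fun w hw j N => ?_⟩
      have hr : p.r + 1 = n - 1 := by omega
      have hwg : |w - g| ≤ (1 / 2) ^ k₁ := by
        have := hw.2.1
        have := hw.2.2
        have := k4.le.trans (min_le_right _ _)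
        rw [abs_le]
        constructor <;> linarith
      obtain ⟨rk, E, m1, -, m3, -, m5⟩ := hk₁ w hw.1 hwg
      rw [hr]
      exact exs_jetE m1 m3 (m5.sub a2)
  have hdl : ∀ l < p.r, HasDerivAt (fun x => L l x x) 1 g := by
    intro l hl
    have h3 := hκ l (by omega) (e2 l hl)
    have h4 := hd0 l (by omega)
    rw [h3] at h4
    exact h4
  have hdT := hdv p.r (by omega)
  have hdN := hdv (p.r + 1) e1
  have hs1 : 1 ≤ deriv (fun a => L p.r a a) g := by
    rw [hde p.r (by omega)]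
    exact Pool.RV28.slope_ge (H₀.lawL o (sw 1 p.r)) g0 g1
      (lev_lt' H₀.toPk hTop hF ho (hsl p.r (by omega)))
      (hdia o ho (sw 1 p.r) (hsl p.r (by omega))).1.hasDerivAt
  have hgp : GpB (G ∩ Set.Icc (α : ℝ) β) g := GpB.icc (hgap hg) hα hβ
  have hmr : ∀ u ∈ G ∩ Set.Icc (α : ℝ) β, ∀ v ∈ G ∩ Set.Icc (α : ℝ) β, u ≤ v →
      L p.r u u - u ≤ L p.r v v - v := fun u hu v hv huv =>
    hmon p.r (by omega) u hu.1 v hv.1 huv
  have hR := h1 ⟨⟨p, α, β⟩, e1, hβ1, hlab⟩ ⟨hg, hα.le, hβ.le⟩ g0 hβ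
    (fun l hl => hlt l (by
      have : l < p.r := hl
      omega) g hg) _ (by linarith : (0 : ℝ) ≤ deriv (fun a => L p.r a a) g)
    (slB_der hdl hdT le_rfl hgp) (tgB_der hdT hs1 le_rfl) (loB_der hdT hmr e4)
    (slK_der hdT e5) _ _ (twG_der hdT hdN (by linarith) e6 e7)
  obtain ⟨κ₀, hκ₀, r₀, hr₀, Hf⟩ := NtG.of_icc hα hβ hR p.e (by exact_mod_cast e3)
  obtain ⟨k, hk⟩ := exists_nat_one_div_lt (lt_min hκ₀ hr₀)
  refine ⟨k, ⟨η, fun w => (hη w).sub b2⟩, hch, hdv, fun a b ha hb _ _ _ _ _ _ _ ρ hρ hkρ v hv vt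
    hvt w y o a1 a2 a3 a4 a5 a6 nH nV lv nB nW hN => ?_⟩
  have hk0 : (0 : ℝ) < (k : ℝ) + 1 := by positivity
  have hρr : ρ < r₀ := by
    have h2 : ρ < 1 / ((k : ℝ) + 1) := by
      rw [lt_div_iff₀ hk0]
      linarith
    exact h2.trans (hk.trans_le (min_le_right _ _))
  subst ha
  exact Hf ρ hρ hρr v hv vt hvt w y o a1 a2 a3 a4 a5 a6 nH nV lv nB nW
    (nrT_le hN (hk.le.trans (min_le_left _ _)))

end Pool.W.LPT30
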